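import Mathlib
import Pool.Agent.X4.MK.LimMain

/-!
# Joint limit points of the sizes of the radicals of the members of abc triples

Browkin, Filaseta, Greaves and Schinzel, and Greaves and Nitaj, studied the limit points of
`log c / log rad (abc)` for the abc triples `(a, b, c)`. Here the joint limit points of
`log rad a / log a`, `log rad b / log b`, `log rad c / log c` and `a / c` are studied, also for
triples in residue classes, and the number of the triples near a limit point.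

The triples are points of lattices `p ^ i ∣ a`, `q ^ j ∣ b`, `r ^ k ∣ c` with three fixed primes. By
Ridout's theorem these lattices have no short vectors; the points with a large square factor in one
of the members are counted by the gap principle.
-/

set_option autoImplicit false

namespace Pool.Agent.Results.MP_2ec8a3_nt.JointLimitPoints

open Pool.Agent.X4.MK

/-- the radical: the product of the distinct primes dividing `m` -/
def rad (m : ℕ) : ℕ := ∏ p ∈ m.primeFactors, p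

/-- the abc triples `(a, b, c)` with `X / 2 < c ≤ X`, with `θ₁ * c < a < θ₂ * c`, `a ≡ a₀`, `b ≡ b₀`
modulo `m`, and with `a ^ (α - δ) ≤ rad a ≤ a ^ α`, `b ^ (β - δ) ≤ rad b ≤ b ^ β`,
`c ^ (γ - δ) ≤ rad c ≤ c ^ γ` -/
def Triples (α β γ δ θ₁ θ₂ : ℝ) (m a₀ b₀ : ℕ) (X : ℝ) : Set (ℕ × ℕ × ℕ) :=
  {t | 0 < t.1 ∧ 0 < t.2.1 ∧ Nat.Coprime t.1 t.2.1 ∧ t.1 + t.2.1 = t.2.2 ∧
    X / 2 < t.2.2 ∧ (t.2.2 : ℝ) ≤ X ∧ θ₁ * t.2.2 < t.1 ∧ (t.1 : ℝ) < θ₂ * t.2.2 ∧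
    t.1 ≡ a₀ [MOD m] ∧ t.2.1 ≡ b₀ [MOD m] ∧
    (t.1 : ℝ) ^ (α - δ) ≤ rad t.1 ∧ (rad t.1 : ℝ) ≤ (t.1 : ℝ) ^ α ∧
    (t.2.1 : ℝ) ^ (β - δ) ≤ rad t.2.1 ∧ (rad t.2.1 : ℝ) ≤ (t.2.1 : ℝ) ^ β ∧
    (t.2.2 : ℝ) ^ (γ - δ) ≤ rad t.2.2 ∧ (rad t.2.2 : ℝ) ≤ (t.2.2 : ℝ) ^ γ}

/-- the ratio of `log (rad n)` and `log n` -/
theorem ratio_bound {n : ℕ} (hn : 1 < n) {x δ y ε : ℝ} (h1 : (n : ℝ) ^ (x - δ) ≤ rad n)
    (h2 : (rad n : ℝ) ≤ (n : ℝ) ^ x) (hδ : 0 ≤ δ) (hε : |x - y| + δ < ε) :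
    |Real.log (rad n) / Real.log n - y| < ε := by
  have hn0 : (0 : ℝ) < n := by exact_mod_cast (by omega : 0 < n)
  have hl : 0 < Real.log n := Real.log_pos (by exact_mod_cast hn)
  have hr : (0 : ℝ) < rad n := lt_of_lt_of_le (by positivity) h1
  have k1 : x - δ ≤ Real.log (rad n) / Real.log n := by
    rw [le_div_iff₀ hl, ← Real.log_rpow hn0]
    exact Real.log_le_log (by positivity) h1
  have k2 : Real.log (rad n) / Real.log n ≤ x := by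
    rw [div_le_iff₀ hl, ← Real.log_rpow hn0]
    exact Real.log_le_log hr h2
  rw [abs_lt]
  have k3 := le_abs_self (x - y)
  have k4 := neg_abs_le (x - y)
  constructor <;> linarith

/-- **Main theorem.** Let `𝓛` be the set of the `(α, β, γ)` in the cube `[0, 1] ^ 3` with
`α + β + γ ≥ 1 + max (α, β, γ) / 2`. It contains, for example, all points with
`α + β + γ ≥ 3 / 2` and the points `(α, α, α)` with `α ≥ 2 / 5`. Let `m ≥ 1` and let `a₀`, `b₀` have no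
common prime factor with `m`.
(1) Let `(α, β, γ)` be in the interior, `α, β, γ > 0` and `α + β + γ > 1 + max (α, β, γ) / 2`, and let
`0 ≤ θ₁ < θ₂ ≤ 1`. For every `δ > 0` and all large `X` there are at least
`X ^ (α + β + γ - 1 - δ)` triples of coprime positive integers `a + b = c`, `X / 2 < c ≤ X`,
`θ₁ < a / c < θ₂`, `a ≡ a₀`, `b ≡ b₀` modulo `m`, with `a ^ (α - δ) ≤ rad a ≤ a ^ α`,
`b ^ (β - δ) ≤ rad b ≤ b ^ β` and `c ^ (γ - δ) ≤ rad c ≤ c ^ γ`.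
(2) For all `(α, β, γ)` in `𝓛` and all `θ` in `[0, 1]` there are triples of coprime positive integers
`a + b = c` with `a ≡ a₀`, `b ≡ b₀` modulo `m`, with `a` and `b` as large as desired, and with
`(log rad a / log a, log rad b / log b, log rad c / log c, a / c)` as close to `(α, β, γ, θ)` as
desired. -/
theorem result :
    (∀ α β γ : ℝ, 0 < α → α ≤ 1 → 0 < β → β ≤ 1 → 0 < γ → γ ≤ 1 →
      1 + max α (max β γ) / 2 < α + β + γ →
      ∀ θ₁ θ₂ : ℝ, 0 ≤ θ₁ → θ₁ < θ₂ → θ₂ ≤ 1 →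
      ∀ m a₀ b₀ : ℕ, 0 < m → Nat.Coprime (Nat.gcd a₀ b₀) m → ∀ δ : ℝ, 0 < δ →
        ∃ X₀ : ℝ, ∀ X : ℝ, X₀ ≤ X →
          X ^ (α + β + γ - 1 - δ) ≤ ((Triples α β γ δ θ₁ θ₂ m a₀ b₀ X).ncard : ℝ)) ∧
    (∀ α β γ : ℝ, 0 ≤ α → α ≤ 1 → 0 ≤ β → β ≤ 1 → 0 ≤ γ → γ ≤ 1 →
      1 + max α (max β γ) / 2 ≤ α + β + γ → ∀ θ : ℝ, 0 ≤ θ → θ ≤ 1 →
      ∀ m a₀ b₀ : ℕ, 0 < m → Nat.Coprime (Nat.gcd a₀ b₀) m → ∀ ε : ℝ, 0 < ε → ∀ N : ℕ,
        ∃ a b c : ℕ, Nat.Coprime a b ∧ a + b = c ∧ N < a ∧ N < b ∧ a ≡ a₀ [MOD m] ∧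
          b ≡ b₀ [MOD m] ∧ |Real.log (rad a) / Real.log a - α| < ε ∧
          |Real.log (rad b) / Real.log b - β| < ε ∧
          |Real.log (rad c) / Real.log c - γ| < ε ∧ |(a : ℝ) / c - θ| < ε) := by
  have part1 : ∀ α β γ : ℝ, 0 < α → α ≤ 1 → 0 < β → β ≤ 1 → 0 < γ → γ ≤ 1 →
      1 + max α (max β γ) / 2 < α + β + γ →
      ∀ θ₁ θ₂ : ℝ, 0 ≤ θ₁ → θ₁ < θ₂ → θ₂ ≤ 1 →
      ∀ m a₀ b₀ : ℕ, 0 < m → Nat.Coprime (Nat.gcd a₀ b₀) m → ∀ δ : ℝ, 0 < δ →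
        ∃ X₀ : ℝ, ∀ X : ℝ, X₀ ≤ X →
          X ^ (α + β + γ - 1 - δ) ≤ ((Triples α β γ δ θ₁ θ₂ m a₀ b₀ X).ncard : ℝ) := by
    intro α β γ hα hα1 hβ hβ1 hγ hγ1 hmax θ₁ θ₂ h0 h12 h1 m a₀ b₀ hm hab δ hδ
    have m1 := le_max_left α (max β γ)
    have m2 := le_max_right α (max β γ)
    have m3 := le_max_left β γ
    have m4 := le_max_right β γ
    obtain ⟨X₀, hX₀⟩ := lim_main α β γ hα hα1 hβ hβ1 hγ hγ1 (by linarith) (by linarith)
      (by linarith) θ₁ θ₂ h0 h12 h1 m a₀ b₀ hm hab δ hδ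
    refine ⟨X₀, fun X hX => ?_⟩
    obtain ⟨F, hF, hFc⟩ := hX₀ X hX
    refine hFc.trans ?_
    let g : ℕ × ℕ → ℕ × ℕ × ℕ := fun f => (f.1, f.2, f.1 + f.2)
    have hg : Function.Injective g := by
      rintro ⟨a, b⟩ ⟨a', b'⟩ h
      simp only [g, Prod.mk.injEq] at h
      rw [h.1, h.2.1]
    have hsub : ((F.image g : Finset (ℕ × ℕ × ℕ)) : Set (ℕ × ℕ × ℕ)) ⊆
        Triples α β γ δ θ₁ θ₂ m a₀ b₀ X := by
      intro t ht
      rw [Finset.mem_coe, Finset.mem_image] at ht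
      obtain ⟨⟨a, b⟩, hf, rfl⟩ := ht
      have h := hF _ hf
      exact ⟨h.apos, h.bpos, h.cop, rfl, h.clow, h.cle, h.lo, h.hi, h.ma, h.mb, h.ra1, h.ra2,
        h.rb1, h.rb2, h.rc1, h.rc2⟩
    have hfin : (Triples α β γ δ θ₁ θ₂ m a₀ b₀ X).Finite := by
      have hf : (Set.Iic ⌊X⌋₊ ×ˢ (Set.Iic ⌊X⌋₊ ×ˢ Set.Iic ⌊X⌋₊) : Set (ℕ × ℕ × ℕ)).Finite :=
        (Set.finite_Iic _).prod ((Set.finite_Iic _).prod (Set.finite_Iic _))
      refine hf.subset ?_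
      rintro ⟨a, b, c⟩ ⟨-, -, -, h4, -, h5, -⟩
      simp only at h4 h5
      have h6 : c ≤ ⌊X⌋₊ := Nat.le_floor h5
      refine ⟨?_, ?_, ?_⟩ <;> simp only [Set.mem_Iic] <;> omega
    have h2 := Set.ncard_le_ncard hsub hfin
    rw [Set.ncard_coe_finset, Finset.card_image_of_injective _ hg] at h2
    exact_mod_cast h2
  refine ⟨part1, ?_⟩
  intro α β γ hα hα1 hβ hβ1 hγ hγ1 hmax θ hθ hθ1 m a₀ b₀ hm hab ε hε N
  have m1 := le_max_left α (max β γ)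
  have m2 := le_max_right α (max β γ)
  have m3 := le_max_left β γ
  have m4 := le_max_right β γ
  -- an interior point
  obtain ⟨t, t0, t1, t2⟩ : ∃ t : ℝ, 0 < t ∧ t ≤ 1 ∧ t ≤ ε / 3 :=
    ⟨min 1 (ε / 3), lt_min one_pos (by positivity), min_le_left _ _, min_le_right _ _⟩
  have u : 0 ≤ 1 - t := by linarith
  have i1 := mul_nonneg u hα
  have i2 := mul_nonneg u hβ
  have i3 := mul_nonneg u hγ
  have j1 := mul_le_mul_of_nonneg_left hα1 u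
  have j2 := mul_le_mul_of_nonneg_left hβ1 u
  have j3 := mul_le_mul_of_nonneg_left hγ1 u
  have r1 := mul_le_mul_of_nonneg_left (show 1 + α / 2 ≤ α + β + γ by linarith) u
  have r2 := mul_le_mul_of_nonneg_left (show 1 + β / 2 ≤ α + β + γ by linarith) u
  have r3 := mul_le_mul_of_nonneg_left (show 1 + γ / 2 ≤ α + β + γ by linarith) u
  obtain ⟨α', hα'⟩ : ∃ α' : ℝ, α' = (1 - t) * α + t := ⟨_, rfl⟩
  obtain ⟨β', hβ'⟩ : ∃ β' : ℝ, β' = (1 - t) * β + t := ⟨_, rfl⟩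
  obtain ⟨γ', hγ'⟩ : ∃ γ' : ℝ, γ' = (1 - t) * γ + t := ⟨_, rfl⟩
  have s1 : 1 + α' / 2 < α' + β' + γ' := by rw [hα', hβ', hγ']; linarith
  have s2 : 1 + β' / 2 < α' + β' + γ' := by rw [hα', hβ', hγ']; linarith
  have s3 : 1 + γ' / 2 < α' + β' + γ' := by rw [hα', hβ', hγ']; linarith
  have p1 : 0 < α' := by rw [hα']; linarith
  have p2 : 0 < β' := by rw [hβ']; linarith
  have p3 : 0 < γ' := by rw [hγ']; linarith
  have q1 : α' ≤ 1 := by rw [hα']; linarith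
  have q2 : β' ≤ 1 := by rw [hβ']; linarith
  have q3 : γ' ≤ 1 := by rw [hγ']; linarith
  have d1 : |α' - α| ≤ ε / 3 := by
    have e : α' - α = t * (1 - α) := by rw [hα']; ring
    rw [e, abs_of_nonneg (mul_nonneg t0.le (by linarith))]
    calc t * (1 - α) ≤ t * 1 := mul_le_mul_of_nonneg_left (by linarith) t0.le
      _ ≤ ε / 3 := by linarith
  have d2 : |β' - β| ≤ ε / 3 := by
    have e : β' - β = t * (1 - β) := by rw [hβ']; ring
    rw [e, abs_of_nonneg (mul_nonneg t0.le (by linarith))]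
    calc t * (1 - β) ≤ t * 1 := mul_le_mul_of_nonneg_left (by linarith) t0.le
      _ ≤ ε / 3 := by linarith
  have d3 : |γ' - γ| ≤ ε / 3 := by
    have e : γ' - γ = t * (1 - γ) := by rw [hγ']; ring
    rw [e, abs_of_nonneg (mul_nonneg t0.le (by linarith))]
    calc t * (1 - γ) ≤ t * 1 := mul_le_mul_of_nonneg_left (by linarith) t0.le
      _ ≤ ε / 3 := by linarith
  obtain ⟨δ, δ0, δ1, δ2⟩ : ∃ δ : ℝ, 0 < δ ∧ δ ≤ ε / 3 ∧ δ < α' + β' + γ' - 1 :=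
    ⟨min (ε / 3) ((α' + β' + γ' - 1) / 2), lt_min (by positivity) (by linarith),
      min_le_left _ _, lt_of_le_of_lt (min_le_right _ _) (by linarith)⟩
  -- the interval
  obtain ⟨x, y, hx0, hxy, hy1, hxθ, hyθ⟩ : ∃ x y : ℝ, 0 < x ∧ x < y ∧ y < 1 ∧ θ - ε / 2 ≤ x ∧
      y ≤ θ + ε / 2 := by
    have k1 : max 0 (θ - ε / 2) < min 1 (θ + ε / 2) := by
      rw [max_lt_iff, lt_min_iff, lt_min_iff]
      refine ⟨⟨one_pos, by linarith⟩, by linarith, by linarith⟩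
    have k2 := le_max_left 0 (θ - ε / 2)
    have k3 := le_max_right 0 (θ - ε / 2)
    have k4 := min_le_left 1 (θ + ε / 2)
    have k5 := min_le_right 1 (θ + ε / 2)
    refine ⟨(2 * max 0 (θ - ε / 2) + min 1 (θ + ε / 2)) / 3,
      (max 0 (θ - ε / 2) + 2 * min 1 (θ + ε / 2)) / 3, ?_, ?_, ?_, ?_, ?_⟩ <;> linarith
  obtain ⟨X₀, hX₀⟩ := lim_main α' β' γ' p1 q1 p2 q2 p3 q3 s1 s2 s3 x y hx0.le hxy hy1.le m a₀ b₀ hm
    hab δ δ0
  obtain ⟨X, hXX, hX1, hXx, hXy⟩ : ∃ X : ℝ, X₀ ≤ X ∧ 1 ≤ X ∧ (N + 2 : ℝ) / x * 2 ≤ X ∧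
      (N + 2 : ℝ) / (1 - y) * 2 ≤ X :=
    ⟨max (max X₀ 1) (max ((N + 2 : ℝ) / x * 2) ((N + 2 : ℝ) / (1 - y) * 2)),
      (le_max_left _ _).trans (le_max_left _ _), (le_max_right _ _).trans (le_max_left _ _),
      (le_max_left _ _).trans (le_max_right _ _), (le_max_right _ _).trans (le_max_right _ _)⟩
  obtain ⟨F, hF, hFc⟩ := hX₀ X hXX
  have hne : F.Nonempty := by
    rw [Finset.nonempty_iff_ne_empty]
    rintro rfl
    rw [Finset.card_empty, Nat.cast_zero] at hFc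
    have : 0 < X ^ (α' + β' + γ' - 1 - δ) := by positivity
    linarith
  obtain ⟨⟨a, b⟩, hf⟩ := hne
  have h := hF _ hf
  have g1 := h.clow
  have g2 := h.lo
  have g3 := h.hi
  simp only at g1 g2 g3
  have hc0 : (0 : ℝ) < ((a + b : ℕ) : ℝ) := by linarith
  have hNa : N + 2 < a := by
    have k1 : (N + 2 : ℝ) ≤ x * (X / 2) := by
      rw [div_mul_eq_mul_div, div_le_iff₀ hx0] at hXx
      linarith
    have k2 : x * (X / 2) ≤ x * ((a + b : ℕ) : ℝ) := by gcongr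
    have k3 : (((N + 2 : ℕ)) : ℝ) < a := by push_cast; linarith
    exact_mod_cast k3
  have hNb : N + 2 < b := by
    have hy0 : 0 < 1 - y := by linarith
    have k1 : (N + 2 : ℝ) ≤ (1 - y) * (X / 2) := by
      rw [div_mul_eq_mul_div, div_le_iff₀ hy0] at hXy
      linarith
    have k2 : (1 - y) * (X / 2) ≤ (1 - y) * ((a + b : ℕ) : ℝ) := by gcongr
    have k4 : (b : ℝ) = ((a + b : ℕ) : ℝ) - a := by push_cast; ring
    have k5 : (1 - y) * ((a + b : ℕ) : ℝ) = ((a + b : ℕ) : ℝ) - y * ((a + b : ℕ) : ℝ) := by ring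
    have k3 : (((N + 2 : ℕ)) : ℝ) < b := by push_cast; linarith
    exact_mod_cast k3
  refine ⟨a, b, a + b, h.cop, rfl, by omega, by omega, h.ma, h.mb, ?_, ?_, ?_, ?_⟩
  · exact ratio_bound (by omega) h.ra1 h.ra2 δ0.le (by linarith)
  · exact ratio_bound (by omega) h.rb1 h.rb2 δ0.le (by linarith)
  · exact ratio_bound (by omega) h.rc1 h.rc2 δ0.le (by linarith)
  · rw [abs_lt]
    have k1 : x < (a : ℝ) / ((a + b : ℕ) : ℝ) := by rw [lt_div_iff₀ hc0]; exact g2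
    have k2 : (a : ℝ) / ((a + b : ℕ) : ℝ) < y := by rw [div_lt_iff₀ hc0]; exact g3
    constructor <;> linarith

end Pool.Agent.Results.MP_2ec8a3_nt.JointLimitPoints
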