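import Mathlib
import Pool.Agent.X4.JB.Fin

/-!
# A Khintchine-Jarnik-Besicovitch theory for the exceptions to the weak abc conjecture

How well can a real number `x` be approximated by the fractions `a / c` of the abc triples
`(a, b, c)` which violate `c < rad (abc) ^ M`? The threshold is the exponent `1 / M - 1`: for
`1 / 3 ≤ M < 1` almost all `x` in `[0, 1]` are approximable to within `c ^ (-(1 / M - 1))`
infinitely often, and the set of the `x` approximable to within `c ^ (-τ)`, `τ ≥ 1 / M - 1`, has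
Hausdorff dimension `(1 / M - 1) / τ` for `M ≤ 1 / 2`, and at least this dimension for `M < 1`.
The weak abc conjecture says that the set is empty for large `M`.

The triples are points of lattices `p ^ i ∣ a`, `q ^ j ∣ b`, `r ^ k ∣ c` with three fixed primes. By
Ridout's theorem these lattices have no short vectors, so that their coprime points give the right
number of fractions in every fixed interval, for large heights; the fractions of one lattice are as
well spaced as their number permits.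
-/

set_option autoImplicit false

namespace Pool.Agent.Results.MP_2ec8a3_nt.MetricTheory

open MeasureTheory

/-- the radical: the product of the distinct primes dividing `m` -/
def rad (m : ℕ) : ℕ := ∏ p ∈ m.primeFactors, p

/-- `t = (a, b, c)` is an abc triple: `a`, `b` are positive and coprime and `a + b = c` -/
def IsTriple (t : ℕ × ℕ × ℕ) : Prop :=
  0 < t.1 ∧ 0 < t.2.1 ∧ Nat.Coprime t.1 t.2.1 ∧ t.1 + t.2.1 = t.2.2

/-- the abc triples violating `c < rad (abc) ^ M` -/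
def Violations (M : ℝ) : Set (ℕ × ℕ × ℕ) :=
  {t | IsTriple t ∧ (rad (t.1 * t.2.1 * t.2.2) : ℝ) ^ M ≤ t.2.2}

/-- the abc triples with `rad a ≤ a ^ α`, `rad b ≤ b ^ β` and `rad c ≤ c ^ γ` -/
def Restricted (α β γ : ℝ) : Set (ℕ × ℕ × ℕ) :=
  {t | IsTriple t ∧ (rad t.1 : ℝ) ≤ (t.1 : ℝ) ^ α ∧ (rad t.2.1 : ℝ) ≤ (t.2.1 : ℝ) ^ β ∧
    (rad t.2.2 : ℝ) ≤ (t.2.2 : ℝ) ^ γ}

/-- the `x` in `[0, 1]` with `|x - a / c| < c ^ (-τ)` for infinitely many triples of `P` -/
def Approximable (P : Set (ℕ × ℕ × ℕ)) (τ : ℝ) : Set ℝ :=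
  {x | 0 ≤ x ∧ x ≤ 1 ∧
    {t | t ∈ P ∧ |x - (t.1 : ℝ) / t.2.2| < (t.2.2 : ℝ) ^ (-τ)}.Infinite}

/-- the exponent in the best known upper bound for the number of abc triples with
`rad (abc) ≤ c ^ l` and `c ≤ X` -/
noncomputable def F (l : ℝ) : ℝ :=
  if l ≤ 2 / 3 then 4 * l / 7
  else if l ≤ 1 then (13 * l + 2) / 28
  else if l ≤ 3 / 2 then 5 * (10 * l - 1) / 84
  else if l ≤ 16 / 9 then (9 * l - 1) / 15
  else if l ≤ 2 then 1
  else l - 1

/-- **Main theorem.**
(1) For `1 / 3 ≤ M < 1` and `τ ≤ 1 / M - 1` almost all `x` in `[0, 1]` satisfy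
`|x - a / c| < c ^ (-τ)` for infinitely many abc triples with `c ≥ rad (abc) ^ M`.
(2) For `1 / 3 ≤ M ≤ 1 / 2` and `τ ≥ 1 / M - 1` the set of these `x` has Hausdorff dimension
`(1 / M - 1) / τ`.
(3) For `1 / 3 ≤ M < 1` and `τ ≥ 1 / M - 1` its dimension is at least `(1 / M - 1) / τ`.
(4) For all `M, τ > 0` its dimension is at most `F (1 / M) / τ` (so at most `4 / (7 M τ)` for
`M ≥ 3 / 2`), and it is a null set if `τ > F (1 / M)`.
(5) Let `0 < α, β, γ ≤ 1` and `κ = α + β + γ - 1 > 0`. For `τ ≤ κ` almost all `x` in `[0, 1]` satisfy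
`|x - a / c| < c ^ (-τ)` for infinitely many abc triples with `rad a ≤ a ^ α`, `rad b ≤ b ^ β`,
`rad c ≤ c ^ γ`. For `τ ≥ κ` the set of these `x` has dimension at least `κ / τ` and at most
`min (α + β, α + γ, β + γ) / τ`, hence exactly `κ / τ` if one of `α`, `β`, `γ` is `1`. -/
theorem result :
    (∀ M : ℝ, 1 / 3 ≤ M → M < 1 → ∀ τ : ℝ, τ ≤ 1 / M - 1 →
      volume (Set.Icc (0 : ℝ) 1 \ Approximable (Violations M) τ) = 0) ∧
    (∀ M : ℝ, 1 / 3 ≤ M → M ≤ 1 / 2 → ∀ τ : ℝ, 1 / M - 1 ≤ τ →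
      dimH (Approximable (Violations M) τ) = ENNReal.ofReal ((1 / M - 1) / τ)) ∧
    (∀ M : ℝ, 1 / 3 ≤ M → M < 1 → ∀ τ : ℝ, 1 / M - 1 ≤ τ →
      ENNReal.ofReal ((1 / M - 1) / τ) ≤ dimH (Approximable (Violations M) τ)) ∧
    (∀ M : ℝ, 0 < M → ∀ τ : ℝ, 0 < τ →
      dimH (Approximable (Violations M) τ) ≤ ENNReal.ofReal (F (1 / M) / τ) ∧
      (F (1 / M) < τ → volume (Approximable (Violations M) τ) = 0)) ∧
    (∀ α β γ : ℝ, 0 < α → α ≤ 1 → 0 < β → β ≤ 1 → 0 < γ → γ ≤ 1 → 1 < α + β + γ →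
      (∀ τ : ℝ, τ ≤ α + β + γ - 1 →
        volume (Set.Icc (0 : ℝ) 1 \ Approximable (Restricted α β γ) τ) = 0) ∧
      ∀ τ : ℝ, α + β + γ - 1 ≤ τ →
        ENNReal.ofReal ((α + β + γ - 1) / τ) ≤ dimH (Approximable (Restricted α β γ) τ) ∧
        dimH (Approximable (Restricted α β γ) τ) ≤
          ENNReal.ofReal (min (α + β) (min (α + γ) (β + γ)) / τ) ∧
        ((α = 1 ∨ β = 1 ∨ γ = 1) →
          dimH (Approximable (Restricted α β γ) τ) =
            ENNReal.ofReal ((α + β + γ - 1) / τ))) := by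
  refine ⟨fun M h1 h2 => (Pool.Agent.X4.JB.main_viol M h1 h2).1,
    fun M h1 h2 => Pool.Agent.X4.JB.main_viol_eq M h1 h2,
    fun M h1 h2 => (Pool.Agent.X4.JB.main_viol M h1 h2).2, fun M hM τ hτ => ?_, ?_⟩
  · have h := Pool.Agent.X4.JB.main_viol_upper M hM τ hτ
    refine ⟨h, fun hF => ?_⟩
    have h1 : dimH (Approximable (Violations M) τ) < (1 : NNReal) := by
      refine lt_of_le_of_lt h ?_
      rw [ENNReal.coe_one, ← ENNReal.ofReal_one]
      refine (ENNReal.ofReal_lt_ofReal_iff one_pos).2 ?_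
      rw [div_lt_one hτ]
      exact hF
    have h2 := hausdorffMeasure_of_dimH_lt h1
    rw [NNReal.coe_one, hausdorffMeasure_real] at h2
    exact h2
  · intro α β γ h1 h2 h3 h4 h5 h6 h7
    have h := Pool.Agent.X4.JB.main_restr α β γ h1 h2 h3 h4 h5 h6 h7
    refine ⟨h.1, fun τ hτ => ⟨(h.2 τ hτ).1, (h.2 τ hτ).2, fun h8 => ?_⟩⟩
    apply le_antisymm _ (h.2 τ hτ).1
    refine le_trans (h.2 τ hτ).2 (ENNReal.ofReal_le_ofReal ?_)
    apply div_le_div_of_nonneg_right _ (by linarith : 0 ≤ τ)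
    rcases h8 with h8 | h8 | h8
    · exact (min_le_right _ _).trans ((min_le_right _ _).trans (by linarith))
    · exact (min_le_right _ _).trans ((min_le_left _ _).trans (by linarith))
    · exact (min_le_left _ _).trans (by linarith)

end Pool.Agent.Results.MP_2ec8a3_nt.MetricTheory
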