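import Pool.Agent.X61.RS.Three
import Pool.Agent.Y902.GN.FinB

/-!
# abc triples, of all heights, composed of random primes and powers of few integers

Let `S₀` be a set of `c` primes and `T` a set of `k` other primes, all at most `N`. A triple is new if
some prime of `T` divides it and its members are composed of the primes of `S₀ ∪ T` and of powers
(with arbitrary exponents) of `h` integers at most `Y`. There is no condition on the height.

(1) For all but `C Y ^ h N ^ (k - 1 + ε)` of the (about `N ^ k`) sets `T` there is no new triple.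
(2) For every `A` there is `M` such that with `Y = N ^ A`, for all but `C N ^ (k - 1 + ε)` of the sets
`T`, all new triples satisfy Oesterlé's inequality `c < rad(abc) ^ M`.
-/

set_option autoImplicit false

namespace Pool.Agent.Results.MP_2ec8a3_nt.RandomPrimes

open Finset Pool.Agent.X61.RS

/-- the product of the primes dividing `n` -/
def rad (n : ℕ) : ℕ := ∏ p ∈ n.primeFactors, p

/-- `m` is the product of a positive integer whose prime factors belong to `S` and of powers of the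
integers `y j` -/
def Composed {h : ℕ} (S : Finset ℕ) (y : Fin h → ℕ) (m : ℕ) : Prop :=
  ∃ (v : ℕ) (e : Fin h → ℕ), v ≠ 0 ∧ (∀ p : ℕ, p.Prime → p ∣ v → p ∈ S) ∧ m = v * ∏ j, y j ^ e j

/-- `(a, b, a + b)`, written `(a, b)`, is an abc triple, some prime of `T` divides `a b (a + b)`, and
the three members are composed of the primes of `S₀ ∪ T` and of powers of the same `h` positive
integers `y j ≤ Y` -/
def NewTriple (S₀ T : Finset ℕ) (h Y : ℕ) (t : ℕ × ℕ) : Prop :=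
  0 < t.1 ∧ 0 < t.2 ∧ Nat.Coprime t.1 t.2 ∧ (∃ p ∈ T, p ∣ t.1 * t.2 * (t.1 + t.2)) ∧
    ∃ y : Fin h → ℕ, (∀ j, 1 ≤ y j ∧ y j ≤ Y) ∧ Composed (S₀ ∪ T) y t.1 ∧
      Composed (S₀ ∪ T) y t.2 ∧ Composed (S₀ ∪ T) y (t.1 + t.2)

/-- the sets of `k` primes up to `N` which do not belong to `S₀` -/
def Sets (S₀ : Finset ℕ) (k N : ℕ) : Set (Finset ℕ) :=
  {T | (∀ p ∈ T, p.Prime ∧ p ≤ N ∧ p ∉ S₀) ∧ T.card = k}

/-- those for which there is a new triple -/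
def Exceptional (S₀ : Finset ℕ) (k h N Y : ℕ) : Set (Finset ℕ) :=
  {T | T ∈ Sets S₀ k N ∧ ∃ t, NewTriple S₀ T h Y t}

/-- those for which there is a new triple with `c ≥ rad(abc) ^ M` -/
def Violating (M : ℝ) (S₀ : Finset ℕ) (k h N Y : ℕ) : Set (Finset ℕ) :=
  {T | T ∈ Sets S₀ k N ∧ ∃ t, NewTriple S₀ T h Y t ∧
    (rad (t.1 * t.2 * (t.1 + t.2)) : ℝ) ^ M ≤ ((t.1 + t.2 : ℕ) : ℝ)}

theorem prod_enum (S : Finset ℕ) {c : ℕ} (h : S.card = c) (f : ℕ → ℕ) :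
    ∏ j : Fin c, f (S.orderEmbOfFin h j) = ∏ q ∈ S, f q := by
  conv_rhs => rw [← map_orderEmbOfFin_univ S h, prod_map]
  rfl

theorem made_eq {S : Finset ℕ} {m : ℕ} (h0 : m ≠ 0) (h : ∀ p : ℕ, p.Prime → p ∣ m → p ∈ S) :
    m = ∏ q ∈ S, q ^ m.factorization q := by
  conv_lhs => rw [← Nat.prod_factorization_pow_eq_self h0]
  rw [Finsupp.prod_of_support_subset _ _ _ (fun q _ => pow_zero q)]
  intro q hq
  rw [Nat.support_factorization, Nat.mem_primeFactors] at hq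
  exact h q hq.1 hq.2.1

theorem tri_of {S₀ T : Finset ℕ} {c k h N Y : ℕ} (hc : S₀.card = c) (hk : T.card = k)
    (hT : ∀ p ∈ T, p.Prime ∧ p ≤ N ∧ p ∉ S₀) {t : ℕ × ℕ} (ht : NewTriple S₀ T h Y t) :
    ∃ (y : Fin h → ℕ) (f : Fin 3 → Fin c → ℕ) (g : Fin 3 → Fin k → ℕ) (e : Fin 3 → Fin h → ℕ),
      Tri (S₀.orderEmbOfFin hc) Y (T.orderEmbOfFin hk) t y f g e := by
  obtain ⟨h1, h2, h3, ⟨p, hp, hpd⟩, y, hy, hA, hB, hC⟩ := ht
  have hdis : Disjoint S₀ T := by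
    rw [Finset.disjoint_left]
    intro q hq hq'
    exact (hT q hq').2.2 hq
  have hM : ∀ i : Fin 3, Composed (S₀ ∪ T) y ((![t.1, t.2, t.1 + t.2] : Fin 3 → ℕ) i) := by
    intro i
    fin_cases i
    · exact hA
    · exact hB
    · exact hC
  choose v e hv0 hvp hve using hM
  refine ⟨y, fun i j => (v i).factorization (S₀.orderEmbOfFin hc j),
    fun i j => (v i).factorization (T.orderEmbOfFin hk j), e, h1, h2, h3, hy, fun i => ?_, ?_⟩
  · rw [hve i]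
    congr 1
    rw [prod_enum S₀ hc (fun q => q ^ (v i).factorization q),
      prod_enum T hk (fun q => q ^ (v i).factorization q), ← prod_union hdis]
    exact made_eq (hv0 i) (hvp i)
  · have h7 : p ∈ Set.range (T.orderEmbOfFin hk) := by
      rw [range_orderEmbOfFin]
      exact hp
    obtain ⟨j, hj⟩ := h7
    exact ⟨j, by rw [hj]; exact hpd⟩

theorem tri_mono {c k h Y Y' : ℕ} {p₀ : Fin c → ℕ} {l : Fin k → ℕ} {t : ℕ × ℕ} {y : Fin h → ℕ}
    {f : Fin 3 → Fin c → ℕ} {g : Fin 3 → Fin k → ℕ} {e : Fin 3 → Fin h → ℕ}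
    (H : Tri p₀ Y l t y f g e) (hY : Y ≤ Y') : Tri p₀ Y' l t y f g e :=
  ⟨H.a0, H.b0, H.cop, fun j => ⟨(H.y1 j).1, (H.y1 j).2.trans hY⟩, H.rep, H.div⟩

/-- counting sets by their enumerations -/
theorem enum_bound {S₀ : Finset ℕ} {k N : ℕ} {B : ℝ} (E : Set (Finset ℕ))
    (hE : E ⊆ Sets S₀ k N)
    (h : ∀ G : Finset (Fin k → ℕ), (∀ l ∈ G, ∃ (T : Finset ℕ) (hT : T.card = k), T ∈ E ∧
      l = T.orderEmbOfFin hT) → (G.card : ℝ) ≤ B) : E.Finite ∧ (E.ncard : ℝ) ≤ B := by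
  classical
  refine Pool.Agent.Y902.GN.fin_of_bound _ _ fun F hF => ?_
  let g : Finset ℕ → Fin k → ℕ := fun T => if hT : T.card = k then T.orderEmbOfFin hT else 0
  have hg : ∀ T ∈ F, ∃ hT : T.card = k, g T = T.orderEmbOfFin hT := fun T hT =>
    ⟨(hE (hF T hT)).2, by simp only [g, dif_pos (hE (hF T hT)).2]⟩
  have hinj : Set.InjOn g F := by
    intro T hT T' hT' he
    obtain ⟨h1, h2⟩ := hg T hT
    obtain ⟨h3, h4⟩ := hg T' hT'
    have h5 : (T : Set ℕ) = T' := by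
      rw [← range_orderEmbOfFin T h1, ← range_orderEmbOfFin T' h3, ← h2, ← h4, he]
    exact_mod_cast h5
  rw [← card_image_of_injOn hinj]
  refine h _ fun l hl => ?_
  rw [mem_image] at hl
  obtain ⟨T, hT, rfl⟩ := hl
  obtain ⟨hTk, hgT⟩ := hg T hT
  exact ⟨T, hTk, hF T hT, hgT⟩

theorem enum_props {S₀ T : Finset ℕ} {c k N : ℕ} (hc : S₀.card = c) (hk : T.card = k)
    (hT : ∀ p ∈ T, p.Prime ∧ p ≤ N ∧ p ∉ S₀) :
    Function.Injective (T.orderEmbOfFin hk) ∧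
      (∀ j, (T.orderEmbOfFin hk j).Prime ∧ T.orderEmbOfFin hk j ≤ N) ∧
      ∀ j i, T.orderEmbOfFin hk j ≠ S₀.orderEmbOfFin hc i := by
  refine ⟨(T.orderEmbOfFin hk).injective, fun j => ?_, fun j i he => ?_⟩
  · have := hT _ (orderEmbOfFin_mem T hk j)
    exact ⟨this.1, this.2.1⟩
  · refine (hT _ (orderEmbOfFin_mem T hk j)).2.2 ?_
    rw [he]
    exact orderEmbOfFin_mem _ _ _

theorem first (c k h : ℕ) (ε : ℝ) (hε : 0 < ε) : ∃ C : ℝ, 0 < C ∧
    ∀ (N Y : ℕ) (S₀ : Finset ℕ), 1 ≤ N → 1 ≤ Y → Y ≤ N → S₀.card = c →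
      (∀ p ∈ S₀, p.Prime ∧ p ≤ N) → (Exceptional S₀ k h N Y).Finite ∧
        ((Exceptional S₀ k h N Y).ncard : ℝ) ≤
          C * (Y : ℝ) ^ h * (N : ℝ) ^ ((k : ℝ) - 1 + ε) := by
  classical
  obtain ⟨K, C₁, hC₁, H₁⟩ := large_count c h k 0 ε hε
  obtain ⟨C₂, hC₂, H₂⟩ := small_count c h k K ε hε
  refine ⟨C₁ + C₂, by positivity, fun N Y S₀ hN hY hYN hc hS₀ => ?_⟩
  refine enum_bound (S₀ := S₀) (N := N) _ (fun T hT => hT.1) fun G hG => ?_
  have hp : ∀ j, (S₀.orderEmbOfFin hc j).Prime ∧ S₀.orderEmbOfFin hc j ≤ N :=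
    fun j => hS₀ _ (orderEmbOfFin_mem _ _ _)
  let G₁ : Finset (Fin k → ℕ) := G.filter (fun l => ∃ (t : ℕ × ℕ) (y : Fin h → ℕ)
    (f : Fin 3 → Fin c → ℕ) (g : Fin 3 → Fin k → ℕ) (e : Fin 3 → Fin h → ℕ),
      Tri (S₀.orderEmbOfFin hc) Y l t y f g e ∧ N ^ K ≤ t.1 + t.2)
  let G₂ : Finset (Fin k → ℕ) := G.filter (fun l => ∃ (t : ℕ × ℕ) (y : Fin h → ℕ)
    (f : Fin 3 → Fin c → ℕ) (g : Fin 3 → Fin k → ℕ) (e : Fin 3 → Fin h → ℕ),
      Tri (S₀.orderEmbOfFin hc) Y l t y f g e ∧ t.1 + t.2 < N ^ K)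
  have hcov : G ⊆ G₁ ∪ G₂ := by
    intro l hl
    obtain ⟨T, hTk, hTE, rfl⟩ := hG l hl
    obtain ⟨hTS, t, ht⟩ := hTE
    obtain ⟨y, f, g, e, htri⟩ := tri_of hc hTk hTS.1 ht
    rw [mem_union, mem_filter, mem_filter]
    rcases le_or_gt (N ^ K) (t.1 + t.2) with h1 | h1
    · exact Or.inl ⟨hl, t, y, f, g, e, htri, h1⟩
    · exact Or.inr ⟨hl, t, y, f, g, e, htri, h1⟩
  have h1 : (G₁.card : ℝ) ≤ C₁ * (N : ℝ) ^ ((k : ℝ) - 1 + ε) := by
    refine H₁ N _ hN hp G₁ fun l hl => ?_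
    rw [mem_filter] at hl
    obtain ⟨hlG, t, y, f, g, e, htri, hb⟩ := hl
    obtain ⟨T, hTk, hTE, rfl⟩ := hG l hlG
    refine ⟨(enum_props hc hTk hTE.1.1).2.1, t, y, f, g, e, tri_mono htri ?_, ?_⟩
    · rw [zero_add, pow_one]; exact hYN
    · rw [zero_add, pow_one]; exact hb
  have h2 : (G₂.card : ℝ) ≤ C₂ * (Y : ℝ) ^ h * (N : ℝ) ^ ((k : ℝ) - 1 + ε) := by
    refine H₂ N Y _ hN hY hYN hp G₂ fun l hl => ?_
    rw [mem_filter] at hl
    obtain ⟨hlG, t, y, f, g, e, htri, hb⟩ := hl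
    obtain ⟨T, hTk, hTE, rfl⟩ := hG l hlG
    obtain ⟨e1, e2, e3⟩ := enum_props hc hTk hTE.1.1
    exact ⟨e1, e2, e3, t, y, f, g, e, htri, hb⟩
  have h3 : (G.card : ℝ) ≤ G₁.card + G₂.card := by
    exact_mod_cast (card_le_card hcov).trans (card_union_le _ _)
  have hYh : (1 : ℝ) ≤ (Y : ℝ) ^ h := one_le_pow₀ (by exact_mod_cast hY)
  have hNk : (0 : ℝ) < (N : ℝ) ^ ((k : ℝ) - 1 + ε) :=
    Real.rpow_pos_of_pos (by exact_mod_cast hN) _
  have h4 : C₁ * (N : ℝ) ^ ((k : ℝ) - 1 + ε) ≤ C₁ * (Y : ℝ) ^ h * (N : ℝ) ^ ((k : ℝ) - 1 + ε) := by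
    rw [mul_right_comm]
    exact le_mul_of_one_le_right (by positivity) hYh
  calc (G.card : ℝ) ≤ _ := h3
    _ ≤ C₁ * (Y : ℝ) ^ h * (N : ℝ) ^ ((k : ℝ) - 1 + ε) +
        C₂ * (Y : ℝ) ^ h * (N : ℝ) ^ ((k : ℝ) - 1 + ε) := add_le_add (h1.trans h4) h2
    _ = _ := by ring

theorem second (c k h A : ℕ) (ε : ℝ) (hε : 0 < ε) : ∃ M C : ℝ, 0 < C ∧
    ∀ (N : ℕ) (S₀ : Finset ℕ), 1 ≤ N → S₀.card = c → (∀ p ∈ S₀, p.Prime ∧ p ≤ N) →
      (Violating M S₀ k h N (N ^ A)).Finite ∧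
        ((Violating M S₀ k h N (N ^ A)).ncard : ℝ) ≤ C * (N : ℝ) ^ ((k : ℝ) - 1 + ε) := by
  classical
  obtain ⟨K, C₁, hC₁, H₁⟩ := large_count c h k A ε hε
  refine ⟨(A + 1) * K / ε, C₁ + (k * 2 ^ k * 2 : ℕ), by positivity, fun N S₀ hN hc hS₀ => ?_⟩
  have hN0 : (0 : ℝ) < N := by exact_mod_cast hN
  have hN1 : (1 : ℝ) ≤ N := by exact_mod_cast hN
  refine enum_bound (S₀ := S₀) (N := N) _ (fun T hT => hT.1) fun G hG => ?_
  have hp : ∀ j, (S₀.orderEmbOfFin hc j).Prime ∧ S₀.orderEmbOfFin hc j ≤ N :=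
    fun j => hS₀ _ (orderEmbOfFin_mem _ _ _)
  obtain ⟨m, hm⟩ : ∃ m : ℕ, m = ⌊(N : ℝ) ^ ε⌋₊ := ⟨_, rfl⟩
  -- a small prime
  let U : Finset (Fin k → ℕ) := (univ : Finset (Fin k)).biUnion (fun j₀ =>
    Fintype.piFinset (fun j : Fin k => if j = j₀ then range (m + 1) else range (N + 1)))
  let G₁ : Finset (Fin k → ℕ) := G.filter (fun l => ∀ j, m < l j)
  have hcov : G ⊆ U ∪ G₁ := by
    intro l hl
    rw [mem_union, mem_filter]
    by_cases h1 : ∀ j, m < l j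
    · exact Or.inr ⟨hl, h1⟩
    · left
      push Not at h1
      obtain ⟨j, hj⟩ := h1
      refine mem_biUnion.2 ⟨j, mem_univ _, Fintype.mem_piFinset.2 fun j' => ?_⟩
      split_ifs with h3
      · rw [h3, mem_range]; omega
      · obtain ⟨T, hTk, hTE, rfl⟩ := hG l hl
        rw [mem_range]
        exact Nat.lt_succ_of_le ((enum_props hc hTk hTE.1.1).2.1 j').2
  have h1 : (G₁.card : ℝ) ≤ C₁ * (N : ℝ) ^ ((k : ℝ) - 1 + ε) := by
    refine H₁ N _ hN hp G₁ fun l hl => ?_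
    rw [mem_filter] at hl
    obtain ⟨hlG, hlm⟩ := hl
    obtain ⟨T, hTk, hTE, rfl⟩ := hG l hlG
    obtain ⟨hTS, t, ht, hv⟩ := hTE
    obtain ⟨y, f, g, e, htri⟩ := tri_of hc hTk hTS.1 ht
    have hprops := enum_props hc hTk hTS.1
    refine ⟨hprops.2.1, t, y, f, g, e,
      tri_mono htri (Nat.pow_le_pow_right hN (by omega)), ?_⟩
    -- the height
    obtain ⟨j, hj⟩ := htri.div
    have ha := htri.a0
    have hb := htri.b0
    have hr : T.orderEmbOfFin hTk j ≤ rad (t.1 * t.2 * (t.1 + t.2)) := by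
      refine Nat.le_of_dvd (prod_pos fun q hq => (Nat.prime_of_mem_primeFactors hq).pos) ?_
      exact dvd_prod_of_mem (fun q => q) (Nat.mem_primeFactors.2 ⟨(hprops.2.1 j).1, hj,
        by positivity⟩)
    have hNε : (N : ℝ) ^ ε ≤ rad (t.1 * t.2 * (t.1 + t.2)) := by
      have h2 := Nat.lt_floor_add_one ((N : ℝ) ^ ε)
      rw [← hm] at h2
      have h3 : ((m + 1 : ℕ) : ℝ) ≤ rad (t.1 * t.2 * (t.1 + t.2)) := by
        exact_mod_cast (Nat.succ_le_of_lt (hlm j)).trans hr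
      push_cast at h3
      linarith
    have h4 : (((N ^ (A + 1)) ^ K : ℕ) : ℝ) ≤ ((t.1 + t.2 : ℕ) : ℝ) := by
      refine le_trans (le_trans (le_of_eq ?_) (Real.rpow_le_rpow (by positivity) hNε
        (show (0 : ℝ) ≤ (A + 1) * K / ε by positivity))) hv
      rw [← Real.rpow_mul hN0.le, mul_div_cancel₀ _ hε.ne']
      push_cast
      rw [← pow_mul, ← Real.rpow_natCast]
      push_cast
      rfl
    exact_mod_cast h4
  rcases Nat.eq_zero_or_pos k with hk | hk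
  · subst hk
    have hU : U = ∅ := by
      rw [eq_empty_iff_forall_notMem]
      intro l hl
      obtain ⟨j, -, -⟩ := mem_biUnion.1 hl
      exact j.elim0
    rw [hU, empty_union] at hcov
    have h3 : (G.card : ℝ) ≤ G₁.card := by exact_mod_cast card_le_card hcov
    refine (h3.trans h1).trans ?_
    refine mul_le_mul_of_nonneg_right ?_ (by positivity)
    have : (0 : ℝ) ≤ ((0 * 2 ^ 0 * 2 : ℕ) : ℝ) := Nat.cast_nonneg _
    linarith
  have hU : U.card ≤ k * ((m + 1) * (N + 1) ^ (k - 1)) := by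
    refine (card_biUnion_le.trans (sum_le_sum (g := fun _ => (m + 1) * (N + 1) ^ (k - 1))
      fun j₀ _ => ?_)).trans (by rw [sum_const, smul_eq_mul, card_univ, Fintype.card_fin])
    rw [card_pi_one, card_range]
  have hN2 : (N + 1) ^ (k - 1) ≤ 2 ^ k * N ^ (k - 1) := by
    calc (N + 1) ^ (k - 1) ≤ (2 * N) ^ (k - 1) := Nat.pow_le_pow_left (by omega) _
      _ = 2 ^ (k - 1) * N ^ (k - 1) := mul_pow _ _ _
      _ ≤ _ := Nat.mul_le_mul_right _ (Nat.pow_le_pow_right (by norm_num) (by omega))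
  have hU2 : (U.card : ℝ) ≤ k * (((m : ℝ) + 1) * (2 ^ k * (N : ℝ) ^ (k - 1))) := by
    exact_mod_cast hU.trans (Nat.mul_le_mul_left _ (Nat.mul_le_mul_left _ hN2))
  have hNε : (1 : ℝ) ≤ (N : ℝ) ^ ε := Real.one_le_rpow hN1 hε.le
  have hm2 : (m : ℝ) + 1 ≤ 2 * (N : ℝ) ^ ε := by
    have : (m : ℝ) ≤ (N : ℝ) ^ ε := by
      rw [hm]
      exact Nat.floor_le (by positivity)
    linarith
  have hNk : (N : ℝ) ^ ((k : ℝ) - 1 + ε) = (N : ℝ) ^ ε * (N : ℝ) ^ (k - 1) := by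
    rw [Real.rpow_add hN0, mul_comm, ← Real.rpow_natCast, Nat.cast_sub (by omega), Nat.cast_one]
  have h3 : (G.card : ℝ) ≤ U.card + G₁.card := by
    exact_mod_cast (card_le_card hcov).trans (card_union_le _ _)
  calc (G.card : ℝ) ≤ _ := h3
    _ ≤ k * ((2 * (N : ℝ) ^ ε) * (2 ^ k * (N : ℝ) ^ (k - 1))) +
        C₁ * (N : ℝ) ^ ((k : ℝ) - 1 + ε) := by
        refine add_le_add (hU2.trans ?_) h1
        gcongr
    _ = _ := by
        rw [hNk]
        push_cast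
        ring

/-- **abc triples composed of random primes and powers of few integers.** For all `c`, `k`, `h` and
`ε > 0`: (1) there is `C` such that for all `1 ≤ Y ≤ N` and all sets `S₀` of `c` primes up to `N`
at most `C Y ^ h N ^ (k - 1 + ε)` of the sets `T` of `k` primes up to `N` outside `S₀` have a new
triple; (2) for every `A` there are `M` and `C` such that for all `N` and `S₀` at most
`C N ^ (k - 1 + ε)` of the sets `T` have, for `Y = N ^ A`, a new triple with `c ≥ rad(abc) ^ M`. -/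
theorem result (c k h : ℕ) (ε : ℝ) (hε : 0 < ε) :
    (∃ C : ℝ, 0 < C ∧ ∀ (N Y : ℕ) (S₀ : Finset ℕ), 1 ≤ N → 1 ≤ Y → Y ≤ N → S₀.card = c →
      (∀ p ∈ S₀, p.Prime ∧ p ≤ N) → (Exceptional S₀ k h N Y).Finite ∧
        ((Exceptional S₀ k h N Y).ncard : ℝ) ≤
          C * (Y : ℝ) ^ h * (N : ℝ) ^ ((k : ℝ) - 1 + ε)) ∧
    (∀ A : ℕ, ∃ M C : ℝ, 0 < C ∧ ∀ (N : ℕ) (S₀ : Finset ℕ), 1 ≤ N → S₀.card = c →
      (∀ p ∈ S₀, p.Prime ∧ p ≤ N) → (Violating M S₀ k h N (N ^ A)).Finite ∧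
        ((Violating M S₀ k h N (N ^ A)).ncard : ℝ) ≤ C * (N : ℝ) ^ ((k : ℝ) - 1 + ε)) :=
  ⟨first c k h ε hε, fun A => second c k h A ε hε⟩

end Pool.Agent.Results.MP_2ec8a3_nt.RandomPrimes
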