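import Mathlib
import Pool.Agent.X4.RST.Fin

/-!
# The number of exceptions to the weak abc conjecture, with the second order term

For `1 / 3 < M < 1 / 2` the number of abc triples with `c ≤ X` which violate `c < rad (abc) ^ M` is
`X ^ (1 / M - 1) * exp ((√(24 (3 - 1 / M)) + o(1)) √(log X / log log X))`.

This is what the probabilistic model of Robert, Stewart and Tenenbaum predicts (the integers
`a, b, c` are independent as far as their repeated parts `n / rad n` are concerned).

Upper bound: the triples with `rad (abc) ≤ c ^ 2` are negligible, by the count of the starting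
library. For the other ones the repeated parts of `a, b, c` have a product at most `X`; the triples
with given repeated parts are the primitive points of a lattice in a box, their number is at most
`1 + O(volume / determinant)`, and the sum over the repeated parts is bounded by Rankin's method
and an asymptotic evaluation of the Euler product of `∑ 1 / (rad(m) m ^ σ)` for `σ → 0`.
Lower bound: one counts the triples for which the part of `abc` composed of the primes between `y`
and `y ^ A` whose squares divide it is given, `y` being slightly larger than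
`k = √(6 log X / log log X)` and this part having `k` prime factors, and a power of `2` adjusts
the size.
-/

set_option autoImplicit false

namespace Pool.Agent.Results.MP_2ec8a3_nt.SecondOrderLaw

open Filter Topology

/-- the radical: the product of the distinct primes dividing `m` -/
def rad (m : ℕ) : ℕ := ∏ p ∈ m.primeFactors, p

/-- the pairs `(a, b)` of coprime positive integers with `c = a + b ≤ X` and `c ≥ rad (abc) ^ M`:
the abc triples with `c ≤ X` which violate `c < rad (abc) ^ M` -/
def Exceptions (M : ℝ) (X : ℕ) : Set (ℕ × ℕ) :=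
  {t | 0 < t.1 ∧ 0 < t.2 ∧ Nat.Coprime t.1 t.2 ∧ t.1 + t.2 ≤ X ∧
    (rad (t.1 * t.2 * (t.1 + t.2)) : ℝ) ^ M ≤ ((t.1 + t.2 : ℕ) : ℝ)}

theorem eq_Sm {M : ℝ} (hM : 0 < M) (X : ℕ) : Exceptions M X = Pool.Agent.X4.RST.Sm (1 / M) X := by
  ext t
  have h1 : (0 : ℝ) ≤ rad (t.1 * t.2 * (t.1 + t.2)) := Nat.cast_nonneg _
  have h2 : (0 : ℝ) ≤ ((t.1 + t.2 : ℕ) : ℝ) := Nat.cast_nonneg _
  have key : (rad (t.1 * t.2 * (t.1 + t.2)) : ℝ) ^ M ≤ ((t.1 + t.2 : ℕ) : ℝ) ↔
      (rad (t.1 * t.2 * (t.1 + t.2)) : ℝ) ≤ ((t.1 + t.2 : ℕ) : ℝ) ^ (1 / M) := by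
    constructor
    · intro h
      have := Real.rpow_le_rpow (by positivity) h (by positivity : 0 ≤ 1 / M)
      rwa [← Real.rpow_mul h1, mul_one_div_cancel hM.ne', Real.rpow_one] at this
    · intro h
      have := Real.rpow_le_rpow h1 h hM.le
      rwa [← Real.rpow_mul h2, one_div_mul_cancel hM.ne', Real.rpow_one] at this
  constructor
  · rintro ⟨a1, a2, a3, a4, a5⟩
    exact ⟨a1, a2, a3, a4, key.1 a5⟩
  · rintro ⟨a1, a2, a3, a4, a5⟩
    exact ⟨a1, a2, a3, a4, key.2 a5⟩

/-- **Main theorem.** For `1 / 3 < M < 1 / 2` let `N(X)` be the number of abc triples with `c ≤ X`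
and `c ≥ rad (abc) ^ M`. Then `(log N(X) - (1 / M - 1) log X) / √(log X / log log X)` tends to
`√(24 (3 - 1 / M))`. -/
theorem result (M : ℝ) (h1 : 1 / 3 < M) (h2 : M < 1 / 2) :
    (∀ X : ℕ, (Exceptions M X).Finite) ∧
    Tendsto (fun X : ℕ => (Real.log ((Exceptions M X).ncard : ℝ) - (1 / M - 1) * Real.log X) /
      √(Real.log X / Real.log (Real.log X))) atTop (𝓝 (√(24 * (3 - 1 / M)))) := by
  have hM : 0 < M := by linarith
  have e1 : 2 < 1 / M := by
    rw [lt_div_iff₀ hM]
    linarith
  have e2 : 1 / M < 3 := by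
    rw [div_lt_iff₀ hM]
    linarith
  constructor
  · intro X
    rw [eq_Sm hM]
    exact Pool.Agent.X4.RST.Sm_finite _ _
  · simp only [eq_Sm hM]
    exact Pool.Agent.X4.RST.second_order e1 e2

end Pool.Agent.Results.MP_2ec8a3_nt.SecondOrderLaw
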